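import Pool.Agent.H5.EG.Spec3

/-!
# Project EG (helper5), part conv: from real exponents to integer exponents
-/

set_option autoImplicit false

namespace Pool.Agent.H996.EG

open Polynomial Pool.Agent.H5.EG

/-- the exponents on `K'` -/
noncomputable def ex (K : Finset ℕ) (a b : ℕ → ℝ) (k : ℕ) : ℝ :=
  (if k ∈ K then b k - a k else 0) + (if k % 2 = 0 ∧ k / 2 ∈ K then a (k / 2) else 0)

theorem PR_ex {K K' : Finset ℕ} (a b : ℕ → ℝ) (h0 : 0 ∉ K) (hK : K ⊆ K')
    (hK2 : K.image (fun k => 2 * k) ⊆ K') (h0' : 0 ∉ K') {x : ℝ} (hx0 : 0 < x) (hx1 : x < 1) :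
    PR K' (ex K a b) x = ∏ k ∈ K, (1 + x ^ k) ^ (a k) * (1 - x ^ k) ^ (b k) := by
  have hpos : ∀ k : ℕ, k ≠ 0 → 0 < 1 - x ^ k := by
    intro k hk
    have := pow_lt_one₀ hx0.le hx1 hk
    linarith
  have hpos2 : ∀ k : ℕ, 0 < 1 + x ^ k := by
    intro k
    positivity
  have h1 : PR K' (ex K a b) x = (∏ k ∈ K', (if k ∈ K then (1 - x ^ k) ^ (b k - a k) else 1)) *
      ∏ k ∈ K', (if k ∈ K.image (fun k => 2 * k) then (1 - x ^ k) ^ (a (k / 2)) else 1) := by
    rw [PR, ← Finset.prod_mul_distrib]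
    refine Finset.prod_congr rfl fun k hk => ?_
    have hk0 : k ≠ 0 := by
      rintro rfl
      exact h0' hk
    rw [ex, Real.rpow_add (hpos k hk0)]
    have h2 : (k % 2 = 0 ∧ k / 2 ∈ K) ↔ k ∈ K.image (fun k => 2 * k) := by
      rw [Finset.mem_image]
      constructor
      · rintro ⟨h3, h4⟩
        exact ⟨k / 2, h4, by omega⟩
      · rintro ⟨j, h3, rfl⟩
        refine ⟨by omega, ?_⟩
        rw [Nat.mul_div_cancel_left _ (by norm_num)]
        exact h3
    congr 1
    · split_ifs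
      · rfl
      · exact Real.rpow_zero _
    · by_cases h3 : k ∈ K.image (fun k => 2 * k)
      · rw [if_pos h3, if_pos (h2.2 h3)]
      · rw [if_neg h3, if_neg (fun h4 => h3 (h2.1 h4)), Real.rpow_zero]
  rw [h1, Finset.prod_ite_mem, Finset.prod_ite_mem, Finset.inter_eq_right.2 hK,
    Finset.inter_eq_right.2 hK2, Finset.prod_image (fun i _ j _ h => by
      have h' : 2 * i = 2 * j := h
      omega), ← Finset.prod_mul_distrib]
  refine Finset.prod_congr rfl fun k hk => ?_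
  have hk0 : k ≠ 0 := by
    rintro rfl
    exact h0 hk
  have h2 : 1 - x ^ (2 * k) = (1 + x ^ k) * (1 - x ^ k) := by ring
  rw [Nat.mul_div_cancel_left _ (by norm_num), h2,
    Real.mul_rpow (hpos2 k).le (hpos k hk0).le, mul_left_comm, ← Real.rpow_add (hpos k hk0),
    sub_add_cancel]

/-- **conv.** -/
theorem conv (h : S_indep) : S_conv := by
  classical
  rintro F B ⟨c, K, a, b, h0, hF⟩
  obtain ⟨K', hK'⟩ : ∃ K' : Finset ℕ, K' = Finset.univ.biUnion
      (fun t : Fin B => K t ∪ (K t).image (fun k => 2 * k)) := ⟨_, rfl⟩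
  have hs1 : ∀ t, K t ⊆ K' := by
    intro t
    rw [hK']
    exact Finset.subset_union_left.trans
      (Finset.subset_biUnion_of_mem (fun t : Fin B => K t ∪ (K t).image (fun k => 2 * k))
        (Finset.mem_univ t))
  have hs2 : ∀ t, (K t).image (fun k => 2 * k) ⊆ K' := by
    intro t
    rw [hK']
    exact Finset.subset_union_right.trans
      (Finset.subset_biUnion_of_mem (fun t : Fin B => K t ∪ (K t).image (fun k => 2 * k))
        (Finset.mem_univ t))
  have h0' : 0 ∉ K' := by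
    rw [hK', Finset.mem_biUnion]
    rintro ⟨t, -, ht⟩
    rw [Finset.mem_union, Finset.mem_image] at ht
    rcases ht with ht | ⟨j, hj, hj0⟩
    · exact h0 t ht
    · have h1 : j = 0 := by omega
      rw [h1] at hj
      exact h0 t hj
  obtain ⟨e, he⟩ : ∃ e : Option (Fin B) → ℕ → ℝ, e = fun t k =>
      match t with
      | none => 0
      | some t => ex (K t) (a t) (b t) k := ⟨_, rfl⟩
  obtain ⟨R, hR⟩ : ∃ R : Option (Fin B) → ℝ[X], R = fun t =>
      match t with
      | none => -F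
      | some t => C (c t) := ⟨_, rfl⟩
  obtain ⟨T₀, hT₀⟩ : ∃ T₀ : Finset (Option (Fin B)), T₀ = Finset.univ.filter
      (fun t => ∀ k ∈ K', ∃ n : ℤ, e t k - e none k = n) := ⟨_, rfl⟩
  have hPR0 : ∀ x, PR K' (e none) x = 1 := by
    intro x
    rw [PR]
    refine Finset.prod_eq_one fun k _ => ?_
    have h1 : e none k = 0 := by rw [he]
    rw [h1, Real.rpow_zero]
  have hPRs : ∀ (t : Fin B) (x : ℝ), 0 < x → x < 1 → PR K' (e (some t)) x =
      ∏ k ∈ K t, (1 + x ^ k) ^ (a t k) * (1 - x ^ k) ^ (b t k) := by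
    intro t x hx0 hx1
    have h1 : e (some t) = ex (K t) (a t) (b t) := by rw [he]
    rw [h1]
    exact PR_ex (a t) (b t) (h0 t) (hs1 t) (hs2 t) h0' hx0 hx1
  have hR0 : ∀ x, (R none).eval x = -(F.eval x) := by
    intro x
    rw [hR]
    exact eval_neg _ _
  have hRs : ∀ (t : Fin B) (x : ℝ), (R (some t)).eval x = c t := by
    intro t x
    rw [hR]
    exact eval_C
  have key := h K' (Option (Fin B)) Finset.univ T₀ none e R h0' (Finset.mem_univ _)
    (Finset.subset_univ _) (fun t _ => by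
      rw [hT₀, Finset.mem_filter]
      exact ⟨fun h1 => h1.2, fun h1 => ⟨Finset.mem_univ _, h1⟩⟩) (fun x hx0 hx1 => by
      rw [Fintype.sum_option, hPR0, hR0, mul_one, hF x hx0 hx1, neg_add_eq_zero]
      refine Finset.sum_congr rfl fun t _ => ?_
      rw [hRs, hPRs t x hx0 hx1])
  have hgood : ∀ t : Fin B, some t ∈ T₀ → ∀ k ∈ K', ∃ n : ℤ, e (some t) k = n := by
    intro t ht k hk
    rw [hT₀, Finset.mem_filter] at ht
    obtain ⟨n, hn⟩ := ht.2 k hk
    have h1 : e none k = 0 := by rw [he]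
    rw [h1, sub_zero] at hn
    exact ⟨n, hn⟩
  have hb : ∀ (t : Fin B) (k : ℕ), ∃ n : ℤ, some t ∈ T₀ → k ∈ K' → e (some t) k = n := by
    intro t k
    by_cases h1 : some t ∈ T₀ ∧ k ∈ K'
    · obtain ⟨n, hn⟩ := hgood t h1.1 k h1.2
      exact ⟨n, fun _ _ => hn⟩
    · exact ⟨0, fun h2 h3 => absurd ⟨h2, h3⟩ h1⟩
  choose bb hbb using hb
  refine ⟨fun t => if some t ∈ T₀ then c t else 0, fun _ => K', fun _ _ => 0, bb,
    fun _ => h0', fun x hx0 hx1 => ?_⟩
  have h1 := key x hx0 hx1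
  have hn : none ∈ T₀ := by
    rw [hT₀, Finset.mem_filter]
    exact ⟨Finset.mem_univ _, fun k _ => ⟨0, by rw [sub_self, Int.cast_zero]⟩⟩
  have h2 : ∑ t ∈ T₀, (R t).eval x * PR K' (e t) x =
      ∑ t : Option (Fin B), if t ∈ T₀ then (R t).eval x * PR K' (e t) x else 0 := by
    rw [Finset.sum_ite_mem, Finset.univ_inter]
  rw [h2, Fintype.sum_option, if_pos hn, hPR0, hR0, mul_one, neg_add_eq_zero] at h1
  rw [h1]
  refine Finset.sum_congr rfl fun t _ => ?_
  dsimp only
  by_cases h3 : some t ∈ T₀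
  · rw [if_pos h3, if_pos h3, hRs, PR]
    congr 1
    refine Finset.prod_congr rfl fun k hk => ?_
    rw [zpow_zero, one_mul, hbb t k h3 hk, Real.rpow_intCast]
  · rw [if_neg h3, if_neg h3, zero_mul]

end Pool.Agent.H996.EG
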